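import Pool.Agent.H716R3.Rad2
import Pool.Agent.H716R3.K2
import Pool.Agent.H716R3.LpC

/-!
# Positive semigroups on `L_p` without bounded `H^∞`-calculus, BIP or `R`-sectoriality
-/

set_option autoImplicit false

open Pool.Agent.H716R3 Pool.Agent.Helper604.UMD MeasureTheory
open scoped NNReal ENNReal

namespace Pool.Agent.Results.MP_a83649_an.PositiveSemigroup

/-- The function `f` is a.e. nonnegative (in particular a.e. real). -/
def AENonneg {Ω : Type} [MeasurableSpace Ω] {μ : Measure Ω} {p : ℝ≥0∞} (f : Lp ℂ p μ) : Prop :=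
  ∀ᵐ x ∂μ, 0 ≤ (f x).re ∧ (f x).im = 0

/-- `-A` generates a `C_0`-semigroup which maps the set `pos` into itself. With `pos` the set of a.e. nonnegative functions
of `L_p(Ω)` this says that `-A` generates a positive `C_0`-semigroup. -/
def GeneratesPositiveSemigroup {X : Type} [NormedAddCommGroup X] [NormedSpace ℂ X] (pos : X → Prop) (A : X →ₗ.[ℂ] X) : Prop :=
  ∃ T : ℝ≥0 → X →L[ℂ] X, IsC0Semigroup T ∧ IsGenerator T (-A) ∧ ∀ t f, pos f → pos (T t f)

/-- On `X` there is a sectorial operator `A` with `ω(A) = 0` such that `-A` generates a positive `C_0`-semigroup, while `A`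
has no bounded `H^∞`-calculus, not all its imaginary powers are bounded, and, if `c` holds, `A` is not `R`-sectorial
and not `R`-analytic. -/
def HasCounterexample (X : Type) [NormedAddCommGroup X] [NormedSpace ℂ X] (pos : X → Prop) (c : Prop) : Prop :=
  ∃ A : X →ₗ.[ℂ] X, IsSectorial A ∧ sectorialAngle A = 0 ∧ GeneratesPositiveSemigroup pos A ∧
    ¬ HasBoundedHInftyCalculus A ∧ ¬ HasBIP A ∧ (c → ¬ IsRSectorial A ∧ ¬ IsRAnalytic A)

/-- For every `p ∈ (1, ∞)` there is a measure space `Ω` and a sectorial operator `A` on `L_p(Ω)` with `ω(A) = 0` such that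
`-A` generates a positive `C_0`-semigroup, while `A` has no bounded `H^∞`-calculus, not all its imaginary powers are bounded,
and, when `p > 2`, `A` is not `R`-sectorial (hence not `R`-analytic). -/
theorem result (p : ℝ≥0∞) [Fact (1 ≤ p)] (h1 : 1 < p) (htop : p ≠ ∞) :
    ∃ (Ω : Type) (_ : MeasurableSpace Ω) (μ : Measure Ω),
      HasCounterexample (Lp ℂ p μ) (fun f => AENonneg f) (2 < p) := by
  have hp : 1 < p.toReal := by
    rw [← ENNReal.toReal_one]
    exact (ENNReal.toReal_lt_toReal ENNReal.one_ne_top htop).2 h1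
  set m := lcModel p htop hp with hm
  refine ⟨I, inferInstance, Measure.count, m.A hp, m.isSectorial hp, m.angle_eq hp,
    ⟨m.T hp, m.isC0 hp, m.isGen hp, ?_⟩, m.no_hinf hp, m.no_bip hp, fun h2 => ?_⟩
  · intro t f hf
    unfold AENonneg at hf ⊢
    rw [Measure.ae_count_iff] at hf ⊢
    have e : m.co (m.T hp t f) = fun i => ((op (symT t) (fun i => (f i).re) i : ℝ) : ℂ) := by
      rw [m.co_T]
      have e1 : m.co f = fun i => (((f i).re : ℝ) : ℂ) := by
        funext i
        change f i = _
        apply Complex.ext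
        · simp
        · rw [Complex.ofReal_im]
          exact (hf i).2
      rw [e1]
      funext i
      obtain ⟨K, i⟩ := i
      rcases i with j | q
      · rw [op_inl, op_inl, off_real]
        unfold off
        push_cast
        rfl
      · rw [op_inr, op_inr]
        push_cast
        rfl
    intro i
    have e2 : (m.T hp t f) i = ((op (symT t) (fun i => (f i).re) i : ℝ) : ℂ) := congrFun e i
    rw [e2, Complex.ofReal_re, Complex.ofReal_im]
    exact ⟨op_nonneg t.coe_nonneg (fun i => (hf i).1) i, rfl⟩
  · have h3 : 2 < p.toReal := by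
      have : (2 : ℝ≥0∞).toReal = 2 := by norm_num
      rw [← this]
      exact (ENNReal.toReal_lt_toReal (by norm_num) htop).2 h2
    have h4 := m.no_rsect h3 hp
    exact ⟨h4, fun h => h4 h.1⟩

end Pool.Agent.Results.MP_a83649_an.PositiveSemigroup
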